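import Pool.Agent.helper33.AG.Spec

set_option autoImplicit false

/-! # AG (MP_5a4a8e_nt), row AZ -/

namespace Pool.Agent.AG

open N1f72dd46 Filter MeasureTheory Set Pool.Agent.QZ

/-- the primitive of the second difference -/
theorem AZ_prim (hWc : Continuous W) (d b c : ℝ) :
    ∫ t in b..c, Z d t = ((∫ v in (0 : ℝ)..d, (W (c + v) - W (c - v)))) -
      (∫ v in (0 : ℝ)..d, (W (b + v) - W (b - v))) := by
  have hi : ∀ p q : ℝ, IntervalIntegrable W volume p q := fun p q => hWc.intervalIntegrable p q
  have h1 : ∫ t in b..c, Z d t = (∫ t in (b + d)..(c + d), W t) + (∫ t in (b - d)..(c - d), W t) -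
      2 * ∫ t in b..c, W t := by
    have e1 : ∫ t in b..c, W (t + d) = ∫ t in (b + d)..(c + d), W t :=
      intervalIntegral.integral_comp_add_right W d
    have e2 : ∫ t in b..c, W (t - d) = ∫ t in (b - d)..(c - d), W t :=
      intervalIntegral.integral_comp_sub_right W d
    have i1 : IntervalIntegrable (fun t => W (t + d)) volume b c :=
      (hWc.comp (continuous_id.add continuous_const)).intervalIntegrable _ _
    have i2 : IntervalIntegrable (fun t => W (t - d)) volume b c :=
      (hWc.comp (continuous_id.sub continuous_const)).intervalIntegrable _ _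
    have i3 : IntervalIntegrable (fun t => 2 * W t) volume b c := (hi b c).const_mul 2
    unfold Z
    rw [intervalIntegral.integral_sub (i1.add i2) i3, intervalIntegral.integral_add i1 i2, e1, e2,
      intervalIntegral.integral_const_mul]
  have h2 : ∀ x : ℝ, ∫ v in (0 : ℝ)..d, (W (x + v) - W (x - v)) =
      (∫ t in x..(x + d), W t) - ∫ t in (x - d)..x, W t := by
    intro x
    have e1 : ∫ v in (0 : ℝ)..d, W (x + v) = ∫ t in x..(x + d), W t := by
      rw [intervalIntegral.integral_comp_add_left W x, add_zero]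
    have e2 : ∫ v in (0 : ℝ)..d, W (x - v) = ∫ t in (x - d)..x, W t := by
      rw [intervalIntegral.integral_comp_sub_left W x, sub_zero]
    have i1 : IntervalIntegrable (fun v => W (x + v)) volume 0 d :=
      (hWc.comp (continuous_const.add continuous_id)).intervalIntegrable _ _
    have i2 : IntervalIntegrable (fun v => W (x - v)) volume 0 d :=
      (hWc.comp (continuous_const.sub continuous_id)).intervalIntegrable _ _
    rw [intervalIntegral.integral_sub i1 i2, e1, e2]
  rw [h1, h2 c, h2 b]
  have a1 := intervalIntegral.integral_add_adjacent_intervals (hi b (b + d)) (hi (b + d) (c + d))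
  have a2 := intervalIntegral.integral_add_adjacent_intervals (hi b c) (hi c (c + d))
  have a3 := intervalIntegral.integral_add_adjacent_intervals (hi (b - d) b) (hi b c)
  have a4 := intervalIntegral.integral_add_adjacent_intervals (hi (b - d) (c - d)) (hi (c - d) c)
  linarith

/-- one symmetric difference of `W` -/
theorem AZ_W (hV : Monotone V) (f C : ℝ) (hTB : TB f C) (x v M : ℝ) (hv : 0 ≤ v) (hx : 0 ≤ x - v)
    (hM : C * Real.exp (f * (x + v)) ≤ M) :
    |W (x + v) - W (x - v) - (Real.exp (x + v) - Real.exp (x - v))| ≤ 2 * v * M := by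
  obtain ⟨hf1, hf2, hC, hb⟩ := hTB
  have hVi : ∀ p q : ℝ, IntervalIntegrable V volume p q := fun p q => hV.intervalIntegrable
  have h1 : W (x + v) - W (x - v) = ∫ u in (x - v)..(x + v), V u := by
    unfold W
    exact intervalIntegral.integral_interval_sub_left (hVi _ _) (hVi _ _)
  have h2 : Real.exp (x + v) - Real.exp (x - v) = ∫ u in (x - v)..(x + v), Real.exp u := by
    rw [integral_exp]
  have h3 : W (x + v) - W (x - v) - (Real.exp (x + v) - Real.exp (x - v)) =
      ∫ u in (x - v)..(x + v), (V u - Real.exp u) := by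
    rw [intervalIntegral.integral_sub (hVi _ _) (Real.continuous_exp.intervalIntegrable _ _), h1, h2]
  rw [h3]
  have h4 : ‖∫ u in (x - v)..(x + v), (V u - Real.exp u)‖ ≤ M * |(x + v) - (x - v)| := by
    refine intervalIntegral.norm_integral_le_of_norm_le_const fun u hu => ?_
    rw [uIoc_of_le (by linarith)] at hu
    rw [Real.norm_eq_abs]
    refine le_trans ?_ hM
    have hu0 : 0 ≤ u := by linarith [hu.1]
    have h5 := hb (Real.exp u) (Real.one_le_exp hu0)
    unfold V
    refine le_trans h5 ?_
    refine mul_le_mul_of_nonneg_left ?_ hC.le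
    rw [← Real.exp_mul, mul_comm]
    refine Real.exp_le_exp.2 ?_
    have hf0 : 0 ≤ f := by linarith
    exact mul_le_mul_of_nonneg_left hu.2 hf0
  rw [Real.norm_eq_abs] at h4
  refine le_trans h4 (le_of_eq ?_)
  rw [show (x + v) - (x - v) = 2 * v by ring, abs_of_nonneg (by linarith)]
  ring

/-- the second difference of the primitive of `W` -/
theorem AZ_D (hV : Monotone V) (hWc : Continuous W) (f C : ℝ) (hTB : TB f C) (x d M : ℝ)
    (hd : 0 ≤ d) (hx : 0 ≤ x - d) (hM : C * Real.exp (f * (x + d)) ≤ M) :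
    |(∫ v in (0 : ℝ)..d, (W (x + v) - W (x - v))) - mt d x| ≤ M * d ^ 2 := by
  have hmt : mt d x = ∫ v in (0 : ℝ)..d, (Real.exp (x + v) - Real.exp (x - v)) := by
    have j1 : IntervalIntegrable (fun v => Real.exp (x + v)) volume 0 d :=
      (Real.continuous_exp.comp (continuous_const.add continuous_id)).intervalIntegrable _ _
    have j2 : IntervalIntegrable (fun v => Real.exp (x - v)) volume 0 d :=
      (Real.continuous_exp.comp (continuous_const.sub continuous_id)).intervalIntegrable _ _
    rw [intervalIntegral.integral_sub j1 j2]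
    have e1 : ∫ v in (0 : ℝ)..d, Real.exp (x + v) = Real.exp (x + d) - Real.exp x := by
      rw [intervalIntegral.integral_comp_add_left Real.exp x, add_zero, integral_exp]
    have e2 : ∫ v in (0 : ℝ)..d, Real.exp (x - v) = Real.exp x - Real.exp (x - d) := by
      rw [intervalIntegral.integral_comp_sub_left Real.exp x, sub_zero, integral_exp]
    rw [e1, e2]
    unfold mt
    rw [Real.cosh_eq, Real.exp_add, sub_eq_add_neg x d, Real.exp_add]
    ring
  have i1 : IntervalIntegrable (fun v => W (x + v) - W (x - v)) volume 0 d :=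
    ((hWc.comp (continuous_const.add continuous_id)).sub
      (hWc.comp (continuous_const.sub continuous_id))).intervalIntegrable _ _
  have i2 : IntervalIntegrable (fun v => Real.exp (x + v) - Real.exp (x - v)) volume 0 d :=
    ((Real.continuous_exp.comp (continuous_const.add continuous_id)).sub
      (Real.continuous_exp.comp (continuous_const.sub continuous_id))).intervalIntegrable _ _
  rw [hmt, ← intervalIntegral.integral_sub i1 i2]
  have hb : ∀ v ∈ Icc 0 d, ‖W (x + v) - W (x - v) - (Real.exp (x + v) - Real.exp (x - v))‖ ≤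
      2 * v * M := by
    intro v hv
    rw [Real.norm_eq_abs]
    refine AZ_W hV f C hTB x v M hv.1 (by linarith [hv.2]) (le_trans ?_ hM)
    refine mul_le_mul_of_nonneg_left (Real.exp_le_exp.2 ?_) hTB.2.2.1.le
    have hf0 : 0 ≤ f := by linarith [hTB.1]
    exact mul_le_mul_of_nonneg_left (by linarith [hv.2]) hf0
  have h1 : ‖∫ v in (0 : ℝ)..d, (W (x + v) - W (x - v) - (Real.exp (x + v) - Real.exp (x - v)))‖ ≤
      ∫ v in (0 : ℝ)..d, 2 * v * M := by
    refine intervalIntegral.norm_integral_le_of_norm_le hd ?_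
      ((by fun_prop : Continuous fun v : ℝ => 2 * v * M).intervalIntegrable _ _)
    exact Eventually.of_forall fun v hv => hb v ⟨hv.1.le, hv.2⟩
  have h2 : ∫ v in (0 : ℝ)..d, 2 * v * M = M * d ^ 2 := by
    have e1 : (fun v : ℝ => 2 * v * M) = fun v => (2 * M) * v := by
      funext v
      ring
    rw [e1, intervalIntegral.integral_const_mul, integral_id]
    ring
  rw [Real.norm_eq_abs, h2] at h1
  exact h1

/-- the integral of `Z` -/
theorem AZ_int (hV : Monotone V) (hWc : Continuous W) (f C : ℝ) (hTB : TB f C) (b c d M : ℝ)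
    (hd : 0 ≤ d) (hb : 0 ≤ b - d) (hbc : b ≤ c) (hM : C * Real.exp (f * (c + d)) ≤ M) :
    |(∫ t in b..c, Z d t) - (mt d c - mt d b)| ≤ 2 * (M * d ^ 2) := by
  have hf0 : 0 ≤ f := by linarith [hTB.1]
  have h1 := AZ_D hV hWc f C hTB c d M hd (by linarith) hM
  have h2 := AZ_D hV hWc f C hTB b d M hd hb (le_trans (mul_le_mul_of_nonneg_left
    (Real.exp_le_exp.2 (mul_le_mul_of_nonneg_left (by linarith) hf0)) hTB.2.2.1.le) hM)
  rw [AZ_prim hWc d b c]
  rw [abs_le] at h1 h2 ⊢
  constructor <;> linarith [h1.1, h1.2, h2.1, h2.2]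

theorem AZ (hZC : ZC_stmt) : AZ_stmt := by
  obtain ⟨hV, hWc, -, -, -, -, -⟩ := hZC
  intro f C hTB
  have hC := hTB.2.2.1
  have hf0 : 0 ≤ f := by linarith [hTB.1]
  have hf1 : f < 1 := hTB.2.1
  refine ⟨5 + 2 * C, by linarith, ?_⟩
  intro a d r ha hd hdr hr
  have hr0 : 0 < r := by linarith
  -- elementary facts
  have hcosh : Real.cosh d - 1 ≤ d ^ 2 := by
    have h1 := Real.abs_exp_sub_one_sub_id_le (x := d) (by rw [abs_of_pos hd]; linarith)
    have h2 := Real.abs_exp_sub_one_sub_id_le (x := -d) (by rw [abs_neg, abs_of_pos hd]; linarith)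
    rw [abs_le] at h1 h2
    rw [Real.cosh_eq]
    nlinarith [h1.2, h2.2]
  have hcosh0 : 0 ≤ Real.cosh d - 1 := by linarith [Real.one_le_cosh d]
  have hexp : ∀ x : ℝ, |x| ≤ 1 → |Real.exp x - 1 - x| ≤ x ^ 2 := fun x hx =>
    Real.abs_exp_sub_one_sub_id_le hx
  have hM : ∀ c : ℝ, c + d ≤ a + 1 / 2 →
      C * Real.exp (f * (c + d)) ≤ 2 * C * Real.exp (f * a) := by
    intro c hc
    have h1 : f * (c + d) ≤ f * a + 1 / 2 := by
      have := mul_le_mul_of_nonneg_left hc hf0
      nlinarith
    have h2 : Real.exp (f * (c + d)) ≤ Real.exp (f * a) * Real.exp (1 / 2) := by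
      rw [← Real.exp_add]
      exact Real.exp_le_exp.2 h1
    have h3 : Real.exp (1 / 2) ≤ 2 := by
      have h4 : Real.exp (1 / 2) ^ 2 = Real.exp 1 := by
        rw [← Real.exp_nat_mul]
        norm_num
      have h5 := Real.exp_one_lt_d9
      have h6 := Real.exp_pos (1 / 2)
      nlinarith
    have h7 := Real.exp_pos (f * a)
    have h8 : Real.exp (f * (c + d)) ≤ Real.exp (f * a) * 2 :=
      le_trans h2 (mul_le_mul_of_nonneg_left h3 h7.le)
    have h9 := mul_le_mul_of_nonneg_left h8 hC.le
    linarith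
  have hea := Real.exp_pos a
  have hefa := Real.exp_pos (f * a)
  -- the assembly
  have hasm : ∀ (I b c e : ℝ), b ≤ c → 0 ≤ b - d → c + d ≤ a + 1 / 2 →
      I = 1 / 2 * (∫ t in b..c, Z d t) → Real.exp c - Real.exp b = Real.exp a * e →
      |e - r| ≤ 5 * r ^ 2 →
      |I - (Real.cosh d - 1) * Real.exp a * r| ≤
        (5 + 2 * C) * d ^ 2 * (r ^ 2 * Real.exp a + Real.exp (f * a)) := by
    intro I b c e hbc hb hc hI he her
    have h1 := AZ_int hV hWc f C hTB b c d _ hd.le hb hbc (hM c hc)
    have h2 : mt d c - mt d b = 2 * (Real.cosh d - 1) * (Real.exp a * e) := by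
      unfold mt
      rw [← he]
      ring
    rw [h2] at h1
    have h3 : |1 / 2 * (∫ t in b..c, Z d t) - (Real.cosh d - 1) * (Real.exp a * e)| ≤
        2 * C * Real.exp (f * a) * d ^ 2 := by
      rw [abs_le] at h1 ⊢
      constructor <;> linarith [h1.1, h1.2]
    have h4 : |(Real.cosh d - 1) * (Real.exp a * e) - (Real.cosh d - 1) * Real.exp a * r| ≤
        d ^ 2 * Real.exp a * (5 * r ^ 2) := by
      rw [show (Real.cosh d - 1) * (Real.exp a * e) - (Real.cosh d - 1) * Real.exp a * r =
        ((Real.cosh d - 1) * Real.exp a) * (e - r) by ring, abs_mul,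
        abs_of_nonneg (mul_nonneg hcosh0 hea.le)]
      exact mul_le_mul (mul_le_mul_of_nonneg_right hcosh hea.le) her (abs_nonneg _) (by positivity)
    rw [hI]
    have h5 := abs_sub_le (1 / 2 * (∫ t in b..c, Z d t)) ((Real.cosh d - 1) * (Real.exp a * e))
      ((Real.cosh d - 1) * Real.exp a * r)
    have h6 : 2 * C * Real.exp (f * a) * d ^ 2 + d ^ 2 * Real.exp a * (5 * r ^ 2) ≤
        (5 + 2 * C) * d ^ 2 * (r ^ 2 * Real.exp a + Real.exp (f * a)) := by
      have h7 : 0 ≤ 2 * C * d ^ 2 * (r ^ 2 * Real.exp a) := by positivity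
      have h8 : 0 ≤ 5 * d ^ 2 * Real.exp (f * a) := by positivity
      nlinarith
    linarith
  constructor
  · refine hasm _ (a + r) (a + 2 * r) (Real.exp (2 * r) - Real.exp r) (by linarith) (by linarith)
      (by linarith) ?_ ?_ ?_
    · have h1 := intervalIntegral.integral_comp_mul_add (a := r / 2) (b := r) (Z d)
        (two_ne_zero : (2 : ℝ) ≠ 0) a
      have e1 : (fun s : ℝ => Z d (a + 2 * s)) = fun s => Z d (2 * s + a) := by
        funext s
        rw [add_comm]
      rw [e1, h1, smul_eq_mul, show 2 * (r / 2) + a = a + r by ring,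
        show 2 * r + a = a + 2 * r by ring]
      norm_num
    · rw [Real.exp_add, Real.exp_add]
      ring
    · have h1 := hexp (2 * r) (by rw [abs_of_pos (by linarith)]; linarith)
      have h2 := hexp r (by rw [abs_of_pos hr0]; linarith)
      rw [abs_le] at h1 h2 ⊢
      constructor <;> nlinarith [h1.1, h1.2, h2.1, h2.2]
  · refine hasm _ (a - 2 * r) (a - r) (Real.exp (-r) - Real.exp (-(2 * r))) (by linarith)
      (by linarith) (by linarith) ?_ ?_ ?_
    · have h1 := intervalIntegral.integral_comp_mul_add (a := r / 2) (b := r) (Z d)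
        (show (-2 : ℝ) ≠ 0 by norm_num) a
      have e1 : (fun s : ℝ => Z d (a - 2 * s)) = fun s => Z d (-2 * s + a) := by
        funext s
        congr 1
        ring
      rw [e1, h1, smul_eq_mul, show -2 * (r / 2) + a = a - r by ring,
        show -2 * r + a = a - 2 * r by ring, intervalIntegral.integral_symm]
      norm_num
    · rw [sub_eq_add_neg a r, sub_eq_add_neg a (2 * r), Real.exp_add, Real.exp_add]
      ring
    · have h1 := hexp (-(2 * r)) (by rw [abs_neg, abs_of_pos (by linarith)]; linarith)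
      have h2 := hexp (-r) (by rw [abs_neg, abs_of_pos hr0]; linarith)
      rw [abs_le] at h1 h2 ⊢
      constructor <;> nlinarith [h1.1, h1.2, h2.1, h2.2]

end Pool.Agent.AG
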