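import Pool.Agent.helper33.AG.Spec

set_option autoImplicit false

/-! # AG (MP_5a4a8e_nt), row OF -/

namespace Pool.Agent.AG

open N1f72dd46 Filter MeasureTheory Set Pool.Agent.QZ

theorem OF (hZC : ZC_stmt) (hTZ : TZ_stmt) (hGD : GD_stmt) : OF_stmt := by
  intro d y A S hd hS hS4 hφ
  obtain ⟨-, -, hZc, -, -, -, -⟩ := hZC
  set F : ℝ → ℝ := fun s => Z d (y - s) - Z d (y + s) with hF
  have hFc : Continuous F :=
    ((hZc d).comp (continuous_const.sub continuous_id)).sub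
      ((hZc d).comp (continuous_const.add continuous_id))
  set g : ℝ → ℝ := fun s => max 0 (F s) with hg
  have hgc : Continuous g := continuous_const.max hFc
  have hg0 : ∀ s, 0 ≤ g s := fun s => le_max_left _ _
  -- the number of tents
  set N : ℕ := ⌈S / (2 * d)⌉₊ - 1 with hN
  have hx1 : 1 ≤ S / (2 * d) := by rw [le_div_iff₀ (by positivity)]; linarith
  have hceil : 1 ≤ ⌈S / (2 * d)⌉₊ := by
    rw [Nat.one_le_ceil_iff]
    linarith
  have hNc : ((N : ℝ) + 1) = (⌈S / (2 * d)⌉₊ : ℝ) := by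
    have : N + 1 = ⌈S / (2 * d)⌉₊ := by omega
    exact_mod_cast this
  have hN1 : S ≤ (2 * (N : ℝ) + 2) * d := by
    have h1 := Nat.le_ceil (S / (2 * d))
    rw [← hNc, div_le_iff₀ (by positivity)] at h1
    linarith
  have hN2 : (2 * (N : ℝ) + 3) * d ≤ 1 / 4 := by
    have h1 := Nat.ceil_lt_add_one (show 0 ≤ S / (2 * d) by linarith)
    rw [← hNc] at h1
    have h2 : (N : ℝ) < S / (2 * d) := by linarith
    rw [lt_div_iff₀ (by positivity)] at h2
    nlinarith
  -- the bound for the sum over the tents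
  have hsum : ∀ τ : ℝ, 0 ≤ τ → τ ≤ 2 →
      ∑ k ∈ Finset.range N, g (d * τ + 2 * ((k : ℝ) + 1) * d) ≤ A := by
    intro τ h0 h2
    set J : Finset ℕ := (Finset.Ico 1 (N + 1)).filter (fun j => 0 < F ((2 * (j : ℝ) + τ) * d)) with hJ
    have hJ1 : ∀ j ∈ J, 1 ≤ j ∧ (2 * (j : ℝ) + 1 + τ) * d ≤ 1 / 4 := by
      intro j hj
      rw [hJ, Finset.mem_filter, Finset.mem_Ico] at hj
      refine ⟨hj.1.1, le_trans ?_ hN2⟩
      have : (j : ℝ) ≤ N := by
        have : j ≤ N := by omega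
        exact_mod_cast this
      nlinarith
    have hgood := hGD d τ J hd h0 hJ1
    have h3 := hφ _ hgood
    rw [hTZ d y J (fun j => (2 * (j : ℝ) + τ) * d) hd] at h3
    have h4 : ∑ j ∈ J, F ((2 * (j : ℝ) + τ) * d) ≤ A := by
      have h5 : ∑ j ∈ J, F ((2 * (j : ℝ) + τ) * d) =
          -∑ j ∈ J, (Z d (y + (2 * (j : ℝ) + τ) * d) - Z d (y - (2 * (j : ℝ) + τ) * d)) := by
        rw [← Finset.sum_neg_distrib]
        refine Finset.sum_congr rfl fun j _ => ?_
        simp only [hF]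
        ring
      rw [h5]
      linarith
    have h6 : ∑ j ∈ Finset.Ico 1 (N + 1), g ((2 * (j : ℝ) + τ) * d) =
        ∑ j ∈ J, F ((2 * (j : ℝ) + τ) * d) := by
      rw [hJ, Finset.sum_filter]
      refine Finset.sum_congr rfl fun j _ => ?_
      by_cases h : 0 < F ((2 * (j : ℝ) + τ) * d)
      · rw [if_pos h]
        exact max_eq_right h.le
      · rw [if_neg h]
        exact max_eq_left (not_lt.1 h)
    have h7 : ∑ j ∈ Finset.Ico 1 (N + 1), g ((2 * (j : ℝ) + τ) * d) =
        ∑ k ∈ Finset.range N, g (d * τ + 2 * ((k : ℝ) + 1) * d) := by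
      rw [Finset.sum_Ico_eq_sum_range, Nat.add_sub_cancel]
      refine Finset.sum_congr rfl fun k _ => ?_
      congr 1
      push_cast
      ring
    rw [← h7, h6]
    exact h4
  -- integration over the shift
  have hint : ∀ k : ℕ, IntervalIntegrable (fun τ => g (d * τ + 2 * ((k : ℝ) + 1) * d)) volume 0 2 :=
    fun k => (hgc.comp ((continuous_const.mul continuous_id).add continuous_const)).intervalIntegrable _ _
  have hI : ∫ τ in (0 : ℝ)..2, ∑ k ∈ Finset.range N, g (d * τ + 2 * ((k : ℝ) + 1) * d) ≤ 2 * A := by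
    have h1 : ∫ τ in (0 : ℝ)..2, ∑ k ∈ Finset.range N, g (d * τ + 2 * ((k : ℝ) + 1) * d) ≤
        ∫ _ in (0 : ℝ)..2, A := by
      refine intervalIntegral.integral_mono_on (by norm_num) ?_ intervalIntegrable_const ?_
      · exact (continuous_finsetSum _ fun k _ => hgc.comp
          ((continuous_const.mul continuous_id).add continuous_const)).intervalIntegrable _ _
      · intro τ hτ
        exact hsum τ hτ.1 hτ.2
    rw [intervalIntegral.integral_const] at h1
    simpa using h1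
  have hsub : ∀ k : ℕ, ∫ τ in (0 : ℝ)..2, g (d * τ + 2 * ((k : ℝ) + 1) * d) =
      d⁻¹ * ∫ x in (2 * ((k : ℝ) + 1) * d)..(2 * (((k + 1 : ℕ) : ℝ) + 1) * d), g x := by
    intro k
    rw [intervalIntegral.integral_comp_mul_add g hd.ne' (2 * ((k : ℝ) + 1) * d), smul_eq_mul]
    have e1 : d * 0 + 2 * ((k : ℝ) + 1) * d = 2 * ((k : ℝ) + 1) * d := by ring
    have e2 : d * 2 + 2 * ((k : ℝ) + 1) * d = 2 * (((k + 1 : ℕ) : ℝ) + 1) * d := by
      push_cast
      ring
    rw [e1, e2]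
  have hadj : ∑ k ∈ Finset.range N, ∫ x in (2 * ((k : ℝ) + 1) * d)..(2 * (((k + 1 : ℕ) : ℝ) + 1) * d), g x =
      ∫ x in (2 * d)..((2 * (N : ℝ) + 2) * d), g x := by
    have h1 := intervalIntegral.sum_integral_adjacent_intervals (f := g) (μ := volume)
      (a := fun k : ℕ => 2 * ((k : ℝ) + 1) * d) (n := N)
      (fun k _ => hgc.intervalIntegrable _ _)
    rw [h1]
    congr 1
    · push_cast
      ring
    · ring
  have htot : d⁻¹ * ∫ x in (2 * d)..((2 * (N : ℝ) + 2) * d), g x ≤ 2 * A := by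
    rw [← hadj, Finset.mul_sum]
    calc ∑ k ∈ Finset.range N, d⁻¹ *
          ∫ x in (2 * ((k : ℝ) + 1) * d)..(2 * (((k + 1 : ℕ) : ℝ) + 1) * d), g x
        = ∑ k ∈ Finset.range N, ∫ τ in (0 : ℝ)..2, g (d * τ + 2 * ((k : ℝ) + 1) * d) :=
          Finset.sum_congr rfl fun k _ => (hsub k).symm
      _ = ∫ τ in (0 : ℝ)..2, ∑ k ∈ Finset.range N, g (d * τ + 2 * ((k : ℝ) + 1) * d) :=
          (intervalIntegral.integral_finsetSum fun k _ => hint k).symm
      _ ≤ 2 * A := hI
  have hfin : ∫ x in (2 * d)..((2 * (N : ℝ) + 2) * d), g x ≤ 2 * d * A := by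
    have h1 : ∫ x in (2 * d)..((2 * (N : ℝ) + 2) * d), g x =
        d * (d⁻¹ * ∫ x in (2 * d)..((2 * (N : ℝ) + 2) * d), g x) := by
      rw [← mul_assoc, mul_inv_cancel₀ hd.ne', one_mul]
    rw [h1]
    have := mul_le_mul_of_nonneg_left htot hd.le
    linarith
  refine le_trans ?_ hfin
  show ∫ s in (2 * d)..S, g s ≤ _
  exact intervalIntegral.integral_mono_interval le_rfl hS hN1
    (Eventually.of_forall fun s => hg0 s) (hgc.intervalIntegrable _ _)

end Pool.Agent.AG
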